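import Pool.Agent.H64.CB.Targets

/-!
MP_fd35e1_ag, board cb_modules, row FIT.
-/

set_option autoImplicit false

open Matrix Pool.Agent.H64.CB

namespace Pool.Agent.H56.CB

theorem pf_FIT (hRAT : T_RAT) : T_FIT := by
  intro K _ _ m x htr hx
  obtain ⟨g, a, hga⟩ := hRAT K m x htr
  set G : Matrix (Fin m) (Fin m) K := Polynomial.aeval x g with hG
  set y : Matrix (Fin m) (Fin m) K := x * G with hy
  have hcom : Commute x G := by
    have h1 : Commute (Polynomial.aeval x (Polynomial.X : Polynomial ℚ))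
        (Polynomial.aeval x g) := by
      unfold Commute SemiconjBy
      rw [← map_mul, ← map_mul, mul_comm]
    rwa [Polynomial.aeval_X] at h1
  have hyb : y ^ (a + 1) * (1 - y) = 0 := by
    have h2 : y ^ (a + 1) = G ^ (a + 1) * x * x ^ a := by
      rw [hy, hcom.mul_pow, (hcom.pow_pow (a + 1) (a + 1)).eq, pow_succ' x a, ← mul_assoc]
    rw [h2, mul_assoc, hga, mul_zero]
  have hyb' : y ^ (a + 1) * y = y ^ (a + 1) := by
    rw [mul_sub, mul_one] at hyb
    exact (sub_eq_zero.1 hyb).symm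
  have hk : ∀ k : ℕ, y ^ (a + 1) * y ^ k = y ^ (a + 1) := by
    intro k
    induction k with
    | zero => rw [pow_zero, mul_one]
    | succ k ih => rw [pow_succ y k, ← mul_assoc, ih, hyb']
  have he : x * Polynomial.aeval x (g * (Polynomial.X * g) ^ a) = y ^ (a + 1) := by
    rw [map_mul, map_pow, map_mul, Polynomial.aeval_X, ← hG, ← hy, ← mul_assoc, ← hy, ← pow_succ']
  refine ⟨g * (Polynomial.X * g) ^ a, ?_, ?_⟩
  · rw [he]
    exact hk (a + 1)
  · rw [he]
    intro h0
    apply hx
    have hnil : IsNilpotent y := ⟨a + 1, h0⟩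
    have hu : IsUnit (1 - y) := hnil.isUnit_one_sub
    have hxa : x ^ a = 0 := by
      obtain ⟨w, hw⟩ := hu
      have h3 : x ^ a * (1 - y) * (↑w⁻¹ : Matrix (Fin m) (Fin m) K) = 0 := by
        rw [hga, zero_mul]
      rw [mul_assoc, ← hw, Units.mul_inv, mul_one] at h3
      exact h3
    have hxn : IsNilpotent x := ⟨a, hxa⟩
    exact (Matrix.isNilpotent_trace_of_isNilpotent hxn).eq_zero

end Pool.Agent.H56.CB
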